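import Pool.Agent.H37.CNU.Stmts

/-!
# Row UNV of the board `cnu`: the degree of `k(x, y, u)` over `k(x)`
-/

set_option autoImplicit false

namespace Pool.CND

open Finset

/-- the residues of `i (q + 1) e + j q ^ 3` modulo `q e` are distinct -/
theorem unv_res {q e : ℕ} (hq : 2 ≤ q) (he : e + q = q ^ 2 + 1) {i i' j j' : ℕ} (hi : i < q)
    (hi' : i' < q) (hj : j < e) (hj' : j' < e)
    (h : ((q * e : ℕ) : ℤ) ∣ (-((i : ℤ) * ((q + 1) * e : ℕ)) + -((j : ℤ) * (q ^ 3 : ℕ))) -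
      (-((i' : ℤ) * ((q + 1) * e : ℕ)) + -((j' : ℤ) * (q ^ 3 : ℕ)))) : i = i' ∧ j = j' := by
  have hez : (e : ℤ) = (q : ℤ) ^ 2 + 1 - q := by
    have : (e : ℤ) + q = (q : ℤ) ^ 2 + 1 := by exact_mod_cast he
    linarith
  have hqz : (2 : ℤ) ≤ q := by exact_mod_cast hq
  have hez0 : (0 : ℤ) < e := by rw [hez]; nlinarith
  have hcop : IsCoprime (e : ℤ) ((q : ℤ) ^ 3) := by
    apply IsCoprime.pow_right
    refine ⟨1, 1 - (q : ℤ), ?_⟩
    rw [hez]
    ring
  have hcop2 : IsCoprime (q : ℤ) ((q : ℤ) + 1) := ⟨-1, 1, by ring⟩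
  have e1 : (-((i : ℤ) * ((q + 1) * e : ℕ)) + -((j : ℤ) * (q ^ 3 : ℕ))) -
      (-((i' : ℤ) * ((q + 1) * e : ℕ)) + -((j' : ℤ) * (q ^ 3 : ℕ))) =
      ((i' : ℤ) - i) * (((q : ℤ) + 1) * e) + ((j' : ℤ) - j) * (q : ℤ) ^ 3 := by
    push_cast
    ring
  rw [e1] at h
  have hj0 : j = j' := by
    have h3 : (e : ℤ) ∣ ((i' : ℤ) - i) * (((q : ℤ) + 1) * e) + ((j' : ℤ) - j) * (q : ℤ) ^ 3 :=
      Dvd.dvd.trans ⟨(q : ℤ), by push_cast; ring⟩ h
    have h5 : (e : ℤ) ∣ ((i' : ℤ) - i) * (((q : ℤ) + 1) * e) :=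
      ⟨((i' : ℤ) - i) * ((q : ℤ) + 1), by ring⟩
    have h4 : (e : ℤ) ∣ ((j' : ℤ) - j) * (q : ℤ) ^ 3 := (Int.dvd_add_right h5).mp h3
    have h7 : (e : ℤ) ∣ (j' : ℤ) - j := hcop.dvd_of_dvd_mul_right h4
    have h8 : (j' : ℤ) - j = 0 := by
      apply Int.eq_zero_of_abs_lt_dvd h7
      rw [abs_lt]
      constructor <;> omega
    omega
  subst hj0
  refine ⟨?_, rfl⟩
  have h4 : (q : ℤ) ∣ ((i' : ℤ) - i) * ((q : ℤ) + 1) := by
    obtain ⟨c, hc⟩ := h
    refine ⟨c, ?_⟩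
    have : (e : ℤ) * (((i' : ℤ) - i) * ((q : ℤ) + 1)) = (e : ℤ) * (q * c) := by
      push_cast at hc ⊢
      linear_combination hc
    exact mul_left_cancel₀ hez0.ne' this
  have h7 : (q : ℤ) ∣ (i' : ℤ) - i := hcop2.dvd_of_dvd_mul_right h4
  have h8 : (i' : ℤ) - i = 0 := by
    apply Int.eq_zero_of_abs_lt_dvd h7
    rw [abs_lt]
    constructor <;> omega
  omega

theorem unv_thm (hUNS : S_UNS) (hUNX : S_UNX) (hVEC : S_VEC) : S_UNV := by
  intro k Ω _ _ _ Λ q e x y u hq heq hx hy hu ox oy ou e1 e2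
  have he1 : 1 ≤ e := by
    have : q ≤ q ^ 2 := by nlinarith
    omega
  have hqe : 1 ≤ q * e := Nat.mul_pos (by omega) he1
  have hle : IntermediateField.adjoin k {x} ≤ IntermediateField.adjoin k {x, y, u} := by
    apply IntermediateField.adjoin.mono
    intro z hz
    rw [Set.mem_singleton_iff] at hz
    subst hz
    simp
  rw [IntermediateField.relfinrank_eq_finrank_of_le hle]
  have hym : y ∈ IntermediateField.adjoin k {x, y, u} :=
    IntermediateField.subset_adjoin k _ (by simp)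
  have hum : u ∈ IntermediateField.adjoin k {x, y, u} :=
    IntermediateField.subset_adjoin k _ (by simp)
  let b : Fin q × Fin e → IntermediateField.extendScalars hle := fun ij =>
    ⟨y ^ (ij.1 : ℕ) * u ^ (ij.2 : ℕ), by
      rw [IntermediateField.mem_extendScalars]
      exact mul_mem (pow_mem hym _) (pow_mem hum _)⟩
  have hyu : ∀ ij : Fin q × Fin e, y ^ (ij.1 : ℕ) * u ^ (ij.2 : ℕ) ≠ 0 := fun ij =>
    mul_ne_zero (pow_ne_zero _ hy) (pow_ne_zero _ hu)
  have hord : ∀ ij : Fin q × Fin e, Λ.ord (y ^ (ij.1 : ℕ) * u ^ (ij.2 : ℕ)) =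
      -(((ij.1 : ℕ) : ℤ) * ((q + 1) * e : ℕ)) + -(((ij.2 : ℕ) : ℤ) * (q ^ 3 : ℕ)) := by
    intro ij
    rw [Λ.ord_mul _ _ (pow_ne_zero _ hy) (pow_ne_zero _ hu), Λ.ord_pow hy, Λ.ord_pow hu, oy, ou]
    ring
  have hli : LinearIndependent (IntermediateField.adjoin k {x}) b := by
    rw [Fintype.linearIndependent_iff]
    intro g hg
    by_contra hcon
    push Not at hcon
    obtain ⟨i0, hi0⟩ := hcon
    have h1 : ∑ ij, ((g ij : IntermediateField.adjoin k {x}) : Ω) *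
        (y ^ (ij.1 : ℕ) * u ^ (ij.2 : ℕ)) = 0 := by
      have h2 := congrArg (fun z : IntermediateField.extendScalars hle => (z : Ω)) hg
      simp only [AddSubmonoidClass.coe_finsetSum, ZeroMemClass.coe_zero] at h2
      rw [← h2]
      refine Finset.sum_congr rfl fun ij _ => ?_
      rfl
    have h3 := hVEC k Ω (Fin q × Fin e) Λ (q * e) (fun ij => y ^ (ij.1 : ℕ) * u ^ (ij.2 : ℕ))
      (fun ij => ((g ij : IntermediateField.adjoin k {x}) : Ω)) hqe hyu
      (fun i j hij hd => by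
        apply hij
        rw [hord i, hord j] at hd
        obtain ⟨h4, h5⟩ := unv_res hq heq i.1.2 j.1.2 i.2.2 j.2.2 hd
        exact Prod.ext (Fin.ext h4) (Fin.ext h5))
      (fun ij => by
        by_cases h0 : ((g ij : IntermediateField.adjoin k {x}) : Ω) = 0
        · exact Or.inl h0
        · right
          exact (hUNX k Ω Λ x (q * e) hqe hx ox _ (g ij).2 h0).1)
      ⟨i0, fun h0 => hi0 (Subtype.ext h0)⟩
    exact h3.1 h1
  have hsp : ⊤ ≤ Submodule.span (IntermediateField.adjoin k {x}) (Set.range b) := by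
    intro z _
    obtain ⟨c, hc, hz⟩ := hUNS k Ω q e x y u hq he1 hu e1 e2 (z : Ω)
      ((IntermediateField.mem_extendScalars hle).mp z.2)
    have h1 : z = ∑ ij : Fin q × Fin e,
        (⟨c ij.1 ij.2, hc _ _⟩ : IntermediateField.adjoin k {x}) • b ij := by
      apply Subtype.ext
      rw [hz, AddSubmonoidClass.coe_finsetSum, Fintype.sum_prod_type]
      refine Finset.sum_congr rfl fun i _ => Finset.sum_congr rfl fun j _ => ?_
      have : (((⟨c i j, hc i j⟩ : IntermediateField.adjoin k {x}) • b (i, j) :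
          IntermediateField.extendScalars hle) : Ω) = c i j * (y ^ (i : ℕ) * u ^ (j : ℕ)) := rfl
      rw [this]
      ring
    rw [h1]
    exact Submodule.sum_mem _ fun ij _ =>
      Submodule.smul_mem _ _ (Submodule.subset_span ⟨ij, rfl⟩)
  have hb := Module.finrank_eq_card_basis (Module.Basis.mk hli hsp)
  rw [hb, Fintype.card_prod, Fintype.card_fin, Fintype.card_fin]

end Pool.CND
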