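import Pool.Agent.H37.CNU.Stmts

/-!
# Row UNX of the board `cnu`: orders on `k(x)`
-/

set_option autoImplicit false

namespace Pool.CND

open Polynomial

theorem unx_aux {k L : Type} [Field k] [Field L] [Algebra k L] (P : Place k L) (e : ℕ)
    (he : 1 ≤ e) : ∀ (n : ℕ) (p : k[X]), p ≠ 0 → p.natDegree ≤ n → ∃ t : ℕ, ∀ y : L, y ≠ 0 →
      P.ord y = -(e : ℤ) → aeval y p ≠ 0 ∧ P.ord (aeval y p) = -((e : ℤ) * t) := by
  intro n
  induction n with
  | zero =>
    intro p hp hn
    have hc := Polynomial.eq_C_of_natDegree_le_zero hn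
    have h0 : p.coeff 0 ≠ 0 := by
      intro h
      apply hp
      rw [hc, h, map_zero]
    refine ⟨0, fun y _ _ => ?_⟩
    rw [hc, aeval_C]
    refine ⟨(_root_.map_ne_zero _).2 h0, ?_⟩
    rw [P.ord_const _ h0]
    simp
  | succ n ih =>
    intro p hp hn
    have hX : p = p.divX * X + C (p.coeff 0) := (divX_mul_X_add p).symm
    by_cases hd : p.divX = 0
    · have hc : p = C (p.coeff 0) := by
        have := hX
        rw [hd, zero_mul, zero_add] at this
        exact this
      have h0 : p.coeff 0 ≠ 0 := by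
        intro h
        apply hp
        rw [hc, h, map_zero]
      refine ⟨0, fun y _ _ => ?_⟩
      rw [hc, aeval_C]
      refine ⟨(_root_.map_ne_zero _).2 h0, ?_⟩
      rw [P.ord_const _ h0]
      simp
    · have hdeg : p.divX.natDegree ≤ n := by
        rw [natDegree_divX_eq_natDegree_tsub_one]
        omega
      obtain ⟨t, ht⟩ := ih _ hd hdeg
      refine ⟨t + 1, fun y hy hye => ?_⟩
      obtain ⟨h1, h2⟩ := ht y hy hye
      have hev : aeval y p = aeval y p.divX * y + algebraMap k L (p.coeff 0) := by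
        conv_lhs => rw [hX]
        simp
      have h3 : P.ord (aeval y p.divX * y) = -((e : ℤ) * (t + 1 : ℕ)) := by
        rw [P.ord_mul _ _ h1 hy, h2, hye]
        push_cast
        ring
      have hge : P.Ge (algebraMap k L (p.coeff 0)) (P.ord (aeval y p.divX * y) + 1) := by
        refine P.ge_mono (P.ge_const _) ?_
        rw [h3]
        have h4 : (1 : ℤ) ≤ e := by exact_mod_cast he
        have h5 : (0 : ℤ) ≤ (e : ℤ) * t := by positivity
        push_cast
        linarith
      have := P.ord_add_of_lt (mul_ne_zero h1 hy) hge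
      rw [hev]
      exact ⟨this.1, this.2.trans h3⟩

theorem unx_thm : S_UNX := by
  intro k L _ _ _ P x e he hx hxe c hc hc0
  rw [IntermediateField.mem_adjoin_simple_iff] at hc
  obtain ⟨r, s, rfl⟩ := hc
  have hr : r ≠ 0 := by
    rintro rfl
    simp at hc0
  have hs : s ≠ 0 := by
    rintro rfl
    simp at hc0
  obtain ⟨t, ht⟩ := unx_aux P e he _ r hr le_rfl
  obtain ⟨u, hu⟩ := unx_aux P e he _ s hs le_rfl
  obtain ⟨hr1, hr2⟩ := ht x hx hxe
  obtain ⟨hs1, hs2⟩ := hu x hx hxe
  rw [P.ord_div hr1 hs1, hr2, hs2]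
  refine ⟨⟨(u : ℤ) - t, by ring⟩, ?_⟩
  intro σ a b ha hσ
  have hax : algebraMap k L a * x ≠ 0 := mul_ne_zero ((_root_.map_ne_zero _).2 ha) hx
  have hao : P.ord (algebraMap k L a * x) = -(e : ℤ) := by
    rw [P.ord_mul _ _ ((_root_.map_ne_zero _).2 ha) hx, P.ord_const _ ha, hxe, zero_add]
  have hge : P.Ge (algebraMap k L b) (P.ord (algebraMap k L a * x) + 1) := by
    refine P.ge_mono (P.ge_const _) ?_
    rw [hao]
    have h4 : (1 : ℤ) ≤ e := by exact_mod_cast he
    linarith
  obtain ⟨hy, hyo⟩ := P.ord_add_of_lt hax hge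
  have hye := hyo.trans hao
  obtain ⟨hr3, hr4⟩ := ht _ hy hye
  obtain ⟨hs3, hs4⟩ := hu _ hy hye
  have h1 : ∀ q : k[X], σ (aeval x q) = aeval (algebraMap k L a * x + algebraMap k L b) q := by
    intro q
    rw [← hσ]
    exact (Polynomial.aeval_algHom_apply (σ : L →ₐ[k] L) x q).symm
  rw [map_div₀, h1, h1, P.ord_div hr3 hs3, hr4, hs4]

end Pool.CND
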